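import Mathlib
import Pool.Agent.Lib.H94J.N9
import Pool.Agent.Lib.H94J.T1
import Pool.Agent.Lib.H94J.T2
import Pool.Agent.Lib.H94J.T3
import Pool.Agent.Lib.H94J.T4

/-!
# Nondegenerate conservation laws of zero-torsion third-order geometric systems

Problem MP_027f17_mp, question Q1, asks whether every zero-torsion system satisfying (C1)-(C5) has
infinitely many higher symmetries and infinitely many nondegenerate local conservation laws.  The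
symmetries always exist and the laws need not (hand-in SymmetriesNotLaws).  Here the systems with
nondegenerate laws are determined: they are those for which the Jordan triple system `σ` has a
parallel nondegenerate symmetric invariant form; one nondegenerate law of one order `k ≥ 1` implies
laws of all orders.
-/

set_option autoImplicit false

namespace Pool.Agent.Results.MP_027f17_mp.LawsIffForm

open Pool.Agent.Lib.H99JetCalc Pool.Agent.Lib.H29J Pool.Agent.Lib.H94J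

variable {𝕜 : Type} [RCLike 𝕜] {N : ℕ}

/-- `ρ` is the density of a local conservation law of the system on the set `Ω` of jets: it is an
analytic function of `(u, …, u_k)` and `D_t ρ = D_x θ` on `Ω` for some differential function
`θ`. -/
structure IsLaw (S : GeometricSystem 𝕜 N) (k : ℕ) (Ω : Set (Jet 𝕜 N)) (ρ : Jet 𝕜 N → 𝕜) :
    Prop where
  order : IsDifferentialFunction k Ω ρ
  conserved : ∃ (θ : Jet 𝕜 N → 𝕜) (m : ℕ), IsDifferentialFunction m Ω θ ∧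
    ∀ j ∈ Ω, evolDeriv S.rhs ρ j = totalDeriv θ j

/-- The order `k` of `ρ` cannot be lowered by a total derivative, on any nonempty open subset of
`Ω`. -/
def IsMinimal (k : ℕ) (Ω : Set (Jet 𝕜 N)) (ρ : Jet 𝕜 N → 𝕜) : Prop :=
  ∀ Ω' ⊆ Ω, IsOpen Ω' → Ω'.Nonempty → ∀ k' < k, ∀ (ρ' η : Jet 𝕜 N → 𝕜) (m : ℕ),
    IsDifferentialFunction k' Ω' ρ' → IsDifferentialFunction m Ω' η →
      ¬ ∀ j ∈ Ω', ρ j = ρ' j + totalDeriv η j

/-- All jets over `U`. -/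
def jetsOver (U : Set (Fin N → 𝕜)) : Set (Jet 𝕜 N) := {j | j 0 ∈ U}

/-- There is a conservation law of some order `k ≥ 1`, on some open set of jets, whose matrix
`∂²ρ/∂u_k∂u_k` is nonsingular at some jet over `u₀`. -/
def OneLaw (S : GeometricSystem 𝕜 N) (u₀ : Fin N → 𝕜) : Prop :=
  ∃ k ≥ 1, ∃ Ω : Set (Jet 𝕜 N), IsOpen Ω ∧ Ω ⊆ jetsOver S.dom ∧ ∃ ρ, IsLaw S k Ω ρ ∧
    ∃ j ∈ Ω, j 0 = u₀ ∧ (topHessian k ρ j).det ≠ 0

/-- There is a neighbourhood `U` of `u₀` such that for every `k ≥ 1` there is a conservation law of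
order `k`, minimal modulo total derivatives, on all jets over `U`, whose matrix `∂²ρ/∂u_k∂u_k` is
nonsingular at every jet over `U`. -/
def AllLaws (S : GeometricSystem 𝕜 N) (u₀ : Fin N → 𝕜) : Prop :=
  ∃ U : Set (Fin N → 𝕜), IsOpen U ∧ u₀ ∈ U ∧ U ⊆ S.dom ∧ ∀ k ≥ 1, ∃ ρ, IsLaw S k (jetsOver U) ρ ∧
    IsMinimal k (jetsOver U) ρ ∧ ∀ j ∈ jetsOver U, (topHessian k ρ j).det ≠ 0

/-- There is an invariant form near `u₀`. -/
def HasForm (S : GeometricSystem 𝕜 N) (u₀ : Fin N → 𝕜) : Prop :=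
  ∃ U : Set (Fin N → 𝕜), IsOpen U ∧ u₀ ∈ U ∧ U ⊆ S.dom ∧ ∃ g, InvForm S U g

theorem isOpen_jetsOver {U : Set (Fin N → 𝕜)} (hU : IsOpen U) : IsOpen (jetsOver U) :=
  hU.preimage (continuous_apply 0)

theorem minimal_of_det {S : GeometricSystem 𝕜 N} (hN : 1 ≤ N) {k : ℕ} (hk : 1 ≤ k)
    {Ω : Set (Jet 𝕜 N)} {ρ : Jet 𝕜 N → 𝕜} (h : IsLaw S k Ω ρ)
    (hdet : ∀ j ∈ Ω, (topHessian k ρ j).det ≠ 0) : IsMinimal k Ω ρ := by
  intro Ω' hΩ' ho hne k' hk' ρ' η m hρ' hη he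
  obtain ⟨j, hj⟩ := hne
  obtain ⟨f, hf⟩ := h.order
  have h1 : IsDifferentialFunction k Ω' ρ := ⟨f, fun j hj => hf j (hΩ' hj)⟩
  have h2 := minimal ho hk ρ ρ' η hk' h1 hρ' hη he j hj
  apply hdet j (hΩ' hj)
  rw [h2]
  have : Nonempty (Fin N) := ⟨⟨0, hN⟩⟩
  exact Matrix.det_zero

/-- From a law to the form. -/
theorem law_form (S : GeometricSystem 𝕜 N) (hT : S.ZeroTorsion) {Ω : Set (Jet 𝕜 N)}
    (hΩ : IsOpen Ω) (hd : Ω ⊆ jetsOver S.dom) {k : ℕ} (hk : 1 ≤ k) {ρ : Jet 𝕜 N → 𝕜}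
    (h : IsLaw S k Ω ρ) (j₀ : Jet 𝕜 N) (hj₀ : j₀ ∈ Ω) (hdet : (topHessian k ρ j₀).det ≠ 0) :
    ∃ U : Set (Fin N → 𝕜), IsOpen U ∧ j₀ 0 ∈ U ∧ U ⊆ S.dom ∧
      ∃ g : (Fin N → 𝕜) → Fin N → Fin N → 𝕜, InvForm S U g ∧
        ∀ u ∈ U, Matrix.of (g u) = topHessian k ρ (Function.update j₀ 0 u) := by
  obtain ⟨K, rfl⟩ : ∃ K, k = K + 1 := ⟨k - 1, by omega⟩
  obtain ⟨θ, m, hθ, hc⟩ := h.conserved
  refine law_form_aux S hT ?_ hΩ hd K m ρ θ h.order hθ hc j₀ hj₀ hdet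
  intro u hu H hH hR3 hS X Y Z W
  exact bil_inv S u H (pt_inv H (S.β u) (S.curvComp u) hH (fun i p q r => (S.symm_β u hu i p q r).1)
    (fun i p q r => (S.symm_β u hu i p q r).2) (curv_skew S u) (curv_bianchi S hT hu) hR3 hS)
    X Y Z W

/-- Where the trace form is nondegenerate it is an invariant form. -/
theorem form_of_trace (S : GeometricSystem 𝕜 N) (h2 : S.C2) (h4 : S.C4) (h5 : S.C5)
    {u₀ : Fin N → 𝕜} (hu₀ : u₀ ∈ S.dom) (hdet : (Matrix.of (trF S u₀)).det ≠ 0) :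
    ∃ U : Set (Fin N → 𝕜), IsOpen U ∧ u₀ ∈ U ∧ U ⊆ S.dom ∧ InvForm S U (trF S) := by
  have han : ∀ a b, AnalyticOnNhd 𝕜 (fun u => trF S u a b) S.dom := by
    intro a b
    unfold trF
    intro u hu
    refine Finset.analyticAt_fun_sum _ fun c _ => ?_
    exact (sig_analytic S c a b c u hu).add (sig_analytic S c b a c u hu)
  have hc : ContinuousOn (fun u => (Matrix.of (trF S u)).det) S.dom := by
    have : ContinuousOn (fun u => Matrix.of (trF S u)) S.dom := by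
      refine continuousOn_pi.mpr fun a => continuousOn_pi.mpr fun b => ?_
      exact (han a b).continuousOn
    exact (continuous_id.matrix_det).comp_continuousOn this
  refine ⟨S.dom ∩ (fun u => (Matrix.of (trF S u)).det) ⁻¹' {0}ᶜ,
    hc.isOpen_inter_preimage S.isOpen_dom isOpen_compl_singleton, ⟨hu₀, hdet⟩,
    Set.inter_subset_left, ?_⟩
  exact trF_inv S h2 h4 h5 _ Set.inter_subset_left fun u hu => hu.2

/-- **Which zero-torsion systems (C1)-(C5) have nondegenerate conservation laws.** -/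
theorem result (𝕜 : Type) [RCLike 𝕜] (N : ℕ) (hN : 1 ≤ N) (S : GeometricSystem 𝕜 N)
    (hT : S.ZeroTorsion) (_h1 : S.C1) (h2 : S.C2) (h3 : S.C3) (h4 : S.C4) (h5 : S.C5) :
    (∀ U : Set (Fin N → 𝕜), IsOpen U → U.Nonempty → U ⊆ S.dom →
      ∀ g : (Fin N → 𝕜) → Fin N → Fin N → 𝕜, InvForm S U g → ∀ k ≥ 1,
        ∃ ρ, IsLaw S k (jetsOver U) ρ ∧ IsMinimal k (jetsOver U) ρ ∧
          ∀ j ∈ jetsOver U, topHessian k ρ j = Matrix.of (fun a b => 2 * g (j 0) a b)) ∧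
    (∀ (k : ℕ) (Ω : Set (Jet 𝕜 N)) (ρ : Jet 𝕜 N → 𝕜), 1 ≤ k → IsOpen Ω → Ω ⊆ jetsOver S.dom →
      IsLaw S k Ω ρ → ∀ j₀ ∈ Ω, (topHessian k ρ j₀).det ≠ 0 →
        ∃ U : Set (Fin N → 𝕜), IsOpen U ∧ j₀ 0 ∈ U ∧ U ⊆ S.dom ∧
          ∃ g : (Fin N → 𝕜) → Fin N → Fin N → 𝕜, InvForm S U g ∧
            ∀ u ∈ U, Matrix.of (g u) = topHessian k ρ (Function.update j₀ 0 u)) ∧
    (∀ u₀ ∈ S.dom, [OneLaw S u₀, AllLaws S u₀, HasForm S u₀].TFAE) ∧
    ∀ u₀ ∈ S.dom, (Matrix.of (trF S u₀)).det ≠ 0 → AllLaws S u₀ := by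
  have hA : ∀ U : Set (Fin N → 𝕜), IsOpen U → U.Nonempty → U ⊆ S.dom →
      ∀ g : (Fin N → 𝕜) → Fin N → Fin N → 𝕜, InvForm S U g → ∀ k ≥ 1,
        ∃ ρ, IsLaw S k (jetsOver U) ρ ∧ (∀ j ∈ jetsOver U, (topHessian k ρ j).det ≠ 0) ∧
          ∀ j ∈ jetsOver U, topHessian k ρ j = Matrix.of (fun a b => 2 * g (j 0) a b) := by
    intro U hU hne hUd g hg k hk
    obtain ⟨m, rfl⟩ : ∃ m, k = m + 1 := ⟨k - 1, by omega⟩
    obtain ⟨ρ, θ, q, h6, h7, h8, h9⟩ := laws S hT h2 h3 h4 h5 U hU hUd hne g hg m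
    refine ⟨ρ, ⟨h6, θ, q, h7, h8⟩, fun j hj => ?_, h9⟩
    rw [h9 j hj]
    have e : Matrix.of (fun a b => 2 * g (j 0) a b) = (2 : 𝕜) • Matrix.of (g (j 0)) := by
      ext a b; simp
    rw [e, Matrix.det_smul]
    exact mul_ne_zero (pow_ne_zero _ two_ne_zero) (hg.nondeg _ hj)
  refine ⟨?_, ?_, ?_, ?_⟩
  · intro U hU hne hUd g hg k hk
    obtain ⟨ρ, h6, h7, h8⟩ := hA U hU hne hUd g hg k hk
    exact ⟨ρ, h6, minimal_of_det hN hk h6 h7, h8⟩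
  · intro k Ω ρ hk hΩ hd h j₀ hj₀ hdet
    exact law_form S hT hΩ hd hk h j₀ hj₀ hdet
  · intro u₀ hu₀
    tfae_have 1 → 3
    | ⟨k, hk, Ω, hΩ, hd, ρ, h, j, hj, hj0, hdet⟩ => by
      obtain ⟨U, hU, hjU, hUd, g, hg, -⟩ := law_form S hT hΩ hd hk h j hj hdet
      rw [hj0] at hjU
      exact ⟨U, hU, hjU, hUd, g, hg⟩
    tfae_have 3 → 2
    | ⟨U, hU, hu, hUd, g, hg⟩ => by
      refine ⟨U, hU, hu, hUd, fun k hk => ?_⟩
      obtain ⟨ρ, h6, h7, -⟩ := hA U hU ⟨u₀, hu⟩ hUd g hg k hk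
      exact ⟨ρ, h6, minimal_of_det hN hk h6 h7, h7⟩
    tfae_have 2 → 1
    | ⟨U, hU, hu, hUd, h⟩ => by
      obtain ⟨ρ, h6, -, h7⟩ := h 1 le_rfl
      have hj : (fun _ => u₀ : Jet 𝕜 N) ∈ jetsOver U := hu
      exact ⟨1, le_rfl, jetsOver U, isOpen_jetsOver hU, fun j hj => hUd hj, ρ, h6, _, hj, rfl, h7 _ hj⟩
    tfae_finish
  · intro u₀ hu₀ hdet
    obtain ⟨U, hU, hu, hUd, hg⟩ := form_of_trace S h2 h4 h5 hu₀ hdet
    refine ⟨U, hU, hu, hUd, fun k hk => ?_⟩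
    obtain ⟨ρ, h6, h7, -⟩ := hA U hU ⟨u₀, hu⟩ hUd _ hg k hk
    exact ⟨ρ, h6, minimal_of_det hN hk h6 h7, h7⟩

end Pool.Agent.Results.MP_027f17_mp.LawsIffForm
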