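import Pool.Agent.Lib.H29J.F
import Pool.Agent.Lib.H29J.E

/-!
# Zero-torsion third-order geometric systems: symmetries always, conservation laws not always

Problem MP_027f17_mp, question Q1, asks whether every zero-torsion system
`u^i_t = u^i_xxx + 3 α^i_jk u^j_x u^k_xx + (∂_j α^i_km + 2 α^i_jr α^r_km - α^i_rj α^r_km + β^i_jkm) u^j_x u^k_x u^m_x`
satisfying (C1)-(C5) has infinitely many higher symmetries and infinitely many nondegenerate local
conservation laws. We answer both halves.

* Every such system has a hierarchy of pairwise commuting higher symmetries of all odd orders, on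
  the whole domain of the system.
* The three-component system
  `u_t = u_xxx + (u_x)^3,  v_t = v_xxx + 3 (u_x)^2 v_x,  w_t = w_xxx + 3 (u_x)^2 w_x`
  satisfies (C1)-(C5), but has no nondegenerate local conservation law of any order `k ≥ 1`.

The definitions are in `Pool.Agent.Lib.H29J.Defs` (systems, conditions, laws, `Commute`,
`IsMonicOfOrder`) and `Pool.Agent.Lib.H99JetCalc.Defs` (jets, differential functions, total
derivative, evolutionary derivative, top Hessian).
-/

set_option autoImplicit false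

namespace Pool.Agent.Results.MP_027f17_mp.SymmetriesNotLaws

open Pool.Agent.Lib.H99JetCalc Pool.Agent.Lib.H29J

/-- **The answer to Q1.**  Let `𝕜` be `ℝ` or `ℂ`.

(1) Every system `S` of the form considered, with any number `N` of components, with zero torsion
and satisfying (C1)-(C5), has a hierarchy `u_τ = K n` (`n = 0, 1, 2, …`) of evolution systems with
`K 0 = u_x`, `K 1` the system itself, `K n = u_{2n+1} + G_n(u, …, u_{2n})` with locally analytic
`G_n` on all jets over the domain, which commute pairwise. So there are higher symmetries of every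
odd order.

(2) There is a three-component system of this form on all of `𝕜^3`, with zero torsion and
(C1)-(C5), which has no nondegenerate local conservation law of any order `k ≥ 1`. -/
theorem result (𝕜 : Type) [RCLike 𝕜] :
    (∀ (N : ℕ) (S : GeometricSystem 𝕜 N),
      S.ZeroTorsion → S.C1 → S.C2 → S.C3 → S.C4 → S.C5 →
      ∃ K : ℕ → Jet 𝕜 N → Fin N → 𝕜,
        (∀ j ∈ S.jets, K 0 j = j 1) ∧ (∀ j ∈ S.jets, K 1 j = S.rhs j) ∧
        (∀ n, IsMonicOfOrder S.jets (2 * n + 1) (K n)) ∧
        ∀ m n, Commute S.jets (K m) (K n)) ∧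
    ∃ S : GeometricSystem 𝕜 3, S.dom = Set.univ ∧
      (∀ j : Jet 𝕜 3, S.rhs j 0 = j 3 0 + j 1 0 ^ 3 ∧
        S.rhs j 1 = j 3 1 + 3 * j 1 0 ^ 2 * j 1 1 ∧
        S.rhs j 2 = j 3 2 + 3 * j 1 0 ^ 2 * j 1 2) ∧
      S.ZeroTorsion ∧ S.C1 ∧ S.C2 ∧ S.C3 ∧ S.C4 ∧ S.C5 ∧
      ∀ k, 1 ≤ k → ¬ S.HasNondegenerateLaw k := by
  refine ⟨?_, noLaws 𝕜⟩
  intro N S hT _ h2 h3 h4 h5
  obtain ⟨K, h0, h1, hK, hc⟩ := hierarchy S hT h2 h3 h4 h5
  exact ⟨K, fun j hj => funext (h0 j hj), fun j hj => funext (h1 j hj), hK, hc⟩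

end Pool.Agent.Results.MP_027f17_mp.SymmetriesNotLaws
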